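import Pool.Agent.Helper5.LCU.Stmts

set_option autoImplicit false

open Finset Pool.Agent.Helper89.UB

namespace Pool.Agent.Helper5.LCU

/-- row NIZ: no internal zeros -/
theorem st_NIZ : ST_NIZ := by
  intro a ha
  obtain ⟨h0, h1⟩ := ha
  have key : ∀ d x y z : ℕ, z - x = d → x ≤ y → y ≤ z → 0 < a x → 0 < a z → 0 < a y := by
    intro d
    induction d with
    | zero =>
      intro x y z hd hxy hyz hx hz
      have : x = y := by omega
      subst this
      exact hx
    | succ d ih =>
      intro x y z hd hxy hyz hx hz
      rcases Nat.eq_or_lt_of_le hxy with h | h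
      · subst h
        exact hx
      rcases Nat.eq_or_lt_of_le hyz with h' | h'
      · subst h'
        exact hz
      obtain ⟨j, rfl⟩ : ∃ j, z = j + 2 := ⟨z - 2, by omega⟩
      have h2 := h1 x j (by omega)
      have h3 : 0 < a (x + 1) * a (j + 1) := lt_of_lt_of_le (mul_pos hx hz) h2
      have h4 : 0 < a (x + 1) := by
        rcases (h0 (x + 1)).lt_or_eq with h | h
        · exact h
        · rw [← h] at h3
          simp at h3
      exact ih (x + 1) y (j + 2) (by omega) h (by omega) h4 hz
  intro x y z hxy hyz hx hz
  exact key (z - x) x y z rfl hxy hyz hx hz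

end Pool.Agent.Helper5.LCU
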